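import Mathlib
import Pool.Agent.Helper38.EQ.Discr

/-! The discriminant of a product of polynomials `X ^ 2 - c`. -/

namespace Pool.Agent.Helper80.R2

open Polynomial

private theorem eval_deriv {R : Type} [CommRing R] {m : ℕ} (c : Fin m → R) (i : Fin m) (s : R)
    (hs : s ^ 2 = c i) :
    (∏ i, (X ^ 2 - C (c i))).derivative.eval s =
      2 * s * ∏ j ∈ Finset.univ.filter (fun j => j ≠ i), (c i - c j) := by
  classical
  rw [derivative_prod_finset, eval_finsetSum]
  rw [Finset.sum_eq_single i]
  · rw [eval_mul, eval_prod]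
    simp only [derivative_sub, derivative_X_pow, derivative_C, sub_zero, eval_sub,
      eval_X, eval_C, eval_pow, hs]
    have h1 : ∏ j ∈ Finset.univ.erase i, (c i - c j) =
        ∏ j ∈ Finset.univ.filter (fun j => j ≠ i), (c i - c j) := by
      refine Finset.prod_congr ?_ fun _ _ => rfl
      ext j
      simp
    rw [h1]
    simp
    ring
  · intro k _ hk
    rw [eval_mul, eval_prod, Finset.prod_eq_zero (i := i)]
    · simp
    · simp [hk.symm]
    · simp [hs]
  · intro h
    exact absurd (Finset.mem_univ i) h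

/-- `discr ∏ (X ^ 2 - c_i)` is, up to a sign, `4 ^ m ∏ c_i (∏_{i ≠ j} (c_i - c_j)) ^ 2`. -/
theorem discr_sq {R : Type} [CommRing R] [IsDomain R] {m : ℕ} (hm : 0 < m) (c : Fin m → R) :
    Associated (∏ i, (X ^ 2 - C (c i))).discr
      (4 ^ m * (∏ i, c i) *
        (∏ i, ∏ j ∈ Finset.univ.filter (fun j => j ≠ i), (c i - c j)) ^ 2) := by
  classical
  set f : R[X] := ∏ i, (X ^ 2 - C (c i)) with hf
  have hmon : f.Monic := monic_prod_of_monic _ _ fun i _ => monic_X_pow_sub_C (c i) two_ne_zero
  have hdeg : f.natDegree = 2 * m := by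
    rw [hf, natDegree_prod_of_monic _ _ fun i _ => monic_X_pow_sub_C (c i) two_ne_zero]
    simp only [natDegree_X_pow_sub_C, Finset.sum_const, Finset.card_univ, Fintype.card_fin,
      smul_eq_mul]
    ring
  let L := AlgebraicClosure (FractionRing R)
  let φ : R →+* L := (algebraMap (FractionRing R) L).comp (algebraMap R (FractionRing R))
  have hφ : Function.Injective φ :=
    (algebraMap (FractionRing R) L).injective.comp (IsFractionRing.injective R (FractionRing R))
  have hs : ∀ i, ∃ s : L, s ^ 2 = φ (c i) := fun i => IsAlgClosed.exists_pow_nat_eq _ two_pos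
  choose s hs using hs
  set g : L[X] := f.map φ with hg
  have hg1 : g = ∏ i, (X ^ 2 - C (φ (c i))) := by
    rw [hg, hf, Polynomial.map_prod]
    simp
  have hg2 : g = (∏ i, (X - C (s i))) * ∏ i, (X - C (- s i)) := by
    rw [hg1, ← Finset.prod_mul_distrib]
    refine Finset.prod_congr rfl fun i _ => ?_
    rw [← hs i, C_pow, C_neg]
    ring
  have hgm : g.Monic := hmon.map φ
  have hgd : g.natDegree = 2 * m := by rw [hg, hmon.natDegree_map, hdeg]
  have hpos : 0 < g.degree := by
    rw [← natDegree_pos_iff_degree_pos, hgd]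
    omega
  have h1 := resultant_deriv hpos
  have hr1 : (∏ i, (X - C (s i)) : L[X]).roots = Finset.univ.val.map s := by
    have := roots_multiset_prod_X_sub_C (Finset.univ.val.map s)
    rw [Multiset.map_map] at this
    exact this
  have hr2 : (∏ i, (X - C (- s i)) : L[X]).roots = Finset.univ.val.map fun i => - s i := by
    have := roots_multiset_prod_X_sub_C (Finset.univ.val.map fun i => - s i)
    rw [Multiset.map_map] at this
    exact this
  have hroots : g.roots = Finset.univ.val.map s + Finset.univ.val.map fun i => - s i := by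
    rw [hg2, roots_mul, hr1, hr2]
    rw [← hg2]
    exact hgm.ne_zero
  have hsplits : g.Splits := IsAlgClosed.splits g
  have h2 := resultant_eq_prod_eval g g.derivative (g.natDegree - 1)
    (natDegree_derivative_le g) hsplits
  rw [h1, hgm.leadingCoeff, one_pow, one_mul, mul_one, hroots, Multiset.map_add,
    Multiset.prod_add, Multiset.map_map, Multiset.map_map] at h2
  have h3 : ∀ (ε : L), ε ^ 2 = 1 → ∀ i, g.derivative.eval (ε * s i) =
      2 * (ε * s i) * ∏ j ∈ Finset.univ.filter (fun j => j ≠ i), (φ (c i) - φ (c j)) := by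
    intro ε hε i
    rw [hg1]
    exact eval_deriv (fun i => φ (c i)) i (ε * s i) (by rw [mul_pow, hε, one_mul, hs])
  have h4 : (Multiset.map ((fun x => eval x g.derivative) ∘ s) Finset.univ.val).prod =
      ∏ i, (2 * s i * ∏ j ∈ Finset.univ.filter (fun j => j ≠ i), (φ (c i) - φ (c j))) := by
    change ∏ i, (eval (s i) g.derivative) = _
    refine Finset.prod_congr rfl fun i _ => ?_
    have := h3 1 (one_pow 2) i
    rwa [one_mul] at this
  have h5 : (Multiset.map ((fun x => eval x g.derivative) ∘ fun i => - s i) Finset.univ.val).prod =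
      ∏ i, (2 * (- s i) * ∏ j ∈ Finset.univ.filter (fun j => j ≠ i), (φ (c i) - φ (c j))) := by
    change ∏ i, (eval (- s i) g.derivative) = _
    refine Finset.prod_congr rfl fun i _ => ?_
    have := h3 (-1) (by norm_num) i
    rwa [neg_one_mul] at this
  rw [h4, h5, ← Finset.prod_mul_distrib] at h2
  have h6 : ∏ i, (2 * s i * (∏ j ∈ Finset.univ.filter (fun j => j ≠ i), (φ (c i) - φ (c j))) *
      (2 * (- s i) * ∏ j ∈ Finset.univ.filter (fun j => j ≠ i), (φ (c i) - φ (c j)))) =
      (-1) ^ m * (4 ^ m * (∏ i, φ (c i)) *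
        (∏ i, ∏ j ∈ Finset.univ.filter (fun j => j ≠ i), (φ (c i) - φ (c j))) ^ 2) := by
    have h7 : ∀ i, (2 * s i * (∏ j ∈ Finset.univ.filter (fun j => j ≠ i), (φ (c i) - φ (c j))) *
      (2 * (- s i) * ∏ j ∈ Finset.univ.filter (fun j => j ≠ i), (φ (c i) - φ (c j)))) =
      (-1) * (4 * φ (c i) *
        (∏ j ∈ Finset.univ.filter (fun j => j ≠ i), (φ (c i) - φ (c j))) ^ 2) := by
      intro i
      rw [← hs i]
      ring
    rw [Finset.prod_congr rfl fun i _ => h7 i]
    simp only [Finset.prod_mul_distrib, Finset.prod_const, Finset.card_univ, Fintype.card_fin,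
      Finset.prod_pow]
  rw [h6] at h2
  have h8 : φ ((-1) ^ (g.natDegree * (g.natDegree - 1) / 2) * f.discr) =
      φ ((-1) ^ m * (4 ^ m * (∏ i, c i) *
        (∏ i, ∏ j ∈ Finset.univ.filter (fun j => j ≠ i), (c i - c j)) ^ 2)) := by
    have h9 : g.discr = φ f.discr :=
      Pool.Agent.Helper38.EQ.discr_map φ f hmon (by rw [hdeg]; omega)
    simp only [map_mul, map_pow, map_prod, map_sub, map_neg, map_one, map_ofNat]
    rw [← h9]
    exact h2
  have h10 := hφ h8
  have hu1 : IsUnit ((-1 : R) ^ (g.natDegree * (g.natDegree - 1) / 2)) := isUnit_one.neg.pow _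
  have hu2 : IsUnit ((-1 : R) ^ m) := isUnit_one.neg.pow _
  have a1 := associated_unit_mul_left f.discr _ hu1
  have a2 := associated_unit_mul_left (4 ^ m * (∏ i, c i) *
        (∏ i, ∏ j ∈ Finset.univ.filter (fun j => j ≠ i), (c i - c j)) ^ 2) _ hu2
  rw [h10] at a1
  exact a1.symm.trans a2

end Pool.Agent.Helper80.R2
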