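import Pool.Agent.Helper49.R2.Example
import Pool.Agent.Helper38.GP.Comps
import Pool.Agent.Helper38.ED.Radical
import Pool.Agent.Helper38.ED.LIBasic
import Pool.Agent.Helper38.ED.PrimeOf

/-! The eleven smooth components of the critical variety of the union of the four cones. -/

set_option linter.unusedSectionVars false

namespace Pool.Agent.Helper80.R2

open MvPowerSeries Pool.Agent.Helper38.EQ
open Pool.Agent.Helper38.ED (LI prime_of_notMem_sq Rad)

/-- The ten slopes `w_k`; the coordinates are `x = X 0`, `y = X 1`, `t = X 2`. -/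
noncomputable def wK (K : Type) [Field K] : Fin 10 → MvPowerSeries (Fin 3) K :=
  ![0, 1, -1, - C (1 / 2), C (1 / 3) * (3 - (1 + X 2) ^ 2), C (1 / 5) * (5 - (1 + X 2) ^ 2),
    C (1 / 2) * (4 - (1 + X 2) ^ 2), C (1 / 4) * (6 - (1 + X 2) ^ 2), 4 - (1 + X 2) ^ 2,
    C (1 / 3) * (6 - (1 + X 2) ^ 2)]

/-- The ten graphs `y = w_k x ^ 3`. -/
noncomputable def gK (K : Type) [Field K] (k : Fin 10) : MvPowerSeries (Fin 3) K :=
  X 1 - wK K k * X 0 ^ 3

/-- The eleven components. -/
noncomputable def eK (K : Type) [Field K] : Fin 11 → MvPowerSeries (Fin 3) K :=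
  Fin.cons (X 0) (gK K)

theorem eK_zero (K : Type) [Field K] : eK K 0 = X 0 := rfl

theorem eK_succ (K : Type) [Field K] (k : Fin 10) : eK K k.succ = gK K k := rfl

section

variable {K : Type} [Field K] [CharZero K]

theorem wK_const (k : Fin 10) : constantCoeff (wK K k) =
    (![0, 1, -1, - (1 / 2), 2 / 3, 4 / 5, 3 / 2, 5 / 4, 3, 5 / 3] : Fin 10 → K) k := by
  have h3 : constantCoeff (3 : MvPowerSeries (Fin 3) K) = 3 := map_ofNat _ 3
  have h4 : constantCoeff (4 : MvPowerSeries (Fin 3) K) = 4 := map_ofNat _ 4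
  have h5 : constantCoeff (5 : MvPowerSeries (Fin 3) K) = 5 := map_ofNat _ 5
  have h6 : constantCoeff (6 : MvPowerSeries (Fin 3) K) = 6 := map_ofNat _ 6
  fin_cases k
  · show constantCoeff (0 : MvPowerSeries (Fin 3) K) = 0
    simp
  · show constantCoeff (1 : MvPowerSeries (Fin 3) K) = 1
    simp
  · show constantCoeff (-1 : MvPowerSeries (Fin 3) K) = -1
    simp
  · show constantCoeff (- C (1 / 2) : MvPowerSeries (Fin 3) K) = - (1 / 2)
    simp
  · show constantCoeff (C (1 / 3) * (3 - (1 + X 2) ^ 2) : MvPowerSeries (Fin 3) K) = 2 / 3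
    rw [map_mul, map_sub, map_pow, map_add, map_one, constantCoeff_X, constantCoeff_C, h3]
    norm_num
  · show constantCoeff (C (1 / 5) * (5 - (1 + X 2) ^ 2) : MvPowerSeries (Fin 3) K) = 4 / 5
    rw [map_mul, map_sub, map_pow, map_add, map_one, constantCoeff_X, constantCoeff_C, h5]
    norm_num
  · show constantCoeff (C (1 / 2) * (4 - (1 + X 2) ^ 2) : MvPowerSeries (Fin 3) K) = 3 / 2
    rw [map_mul, map_sub, map_pow, map_add, map_one, constantCoeff_X, constantCoeff_C, h4]
    norm_num
  · show constantCoeff (C (1 / 4) * (6 - (1 + X 2) ^ 2) : MvPowerSeries (Fin 3) K) = 5 / 4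
    rw [map_mul, map_sub, map_pow, map_add, map_one, constantCoeff_X, constantCoeff_C, h6]
    norm_num
  · show constantCoeff (4 - (1 + X 2) ^ 2 : MvPowerSeries (Fin 3) K) = 3
    rw [map_sub, map_pow, map_add, map_one, constantCoeff_X, h4]
    norm_num
  · show constantCoeff (C (1 / 3) * (6 - (1 + X 2) ^ 2) : MvPowerSeries (Fin 3) K) = 5 / 3
    rw [map_mul, map_sub, map_pow, map_add, map_one, constantCoeff_X, constantCoeff_C, h6]
    norm_num

theorem wK_unit {k l : Fin 10} (h : k ≠ l) : IsUnit (wK K k - wK K l) := by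
  rw [MvPowerSeries.isUnit_iff_constantCoeff, map_sub, wK_const, wK_const, isUnit_iff_ne_zero]
  fin_cases k <;> fin_cases l <;> first
    | exact absurd rfl h
    | (simp; try norm_num)

theorem X_mem (i : Fin 3) :
    (X i : MvPowerSeries (Fin 3) K) ∈ IsLocalRing.maximalIdeal (MvPowerSeries (Fin 3) K) :=
  (mem_maximalIdeal_iff_constantCoeff _).2 (constantCoeff_X _)

theorem cube_mem (w : MvPowerSeries (Fin 3) K) : w * X 0 ^ 3 ∈
    IsLocalRing.maximalIdeal (MvPowerSeries (Fin 3) K) ^ 2 :=
  Ideal.mul_mem_left _ _ (Ideal.pow_le_pow_right (by norm_num) (Ideal.pow_mem_pow (X_mem 0) 3))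

/-- `x` and the graph have independent linear parts. -/
theorem li_gK (w : MvPowerSeries (Fin 3) K) : LI ![X 1 - w * X 0 ^ 3, X 0] := by
  classical
  have hX : ∀ i j : Fin 3, coeff (Finsupp.single j 1) (X i : MvPowerSeries (Fin 3) K) =
      if j = i then 1 else 0 := by
    intro i j
    rw [coeff_X]
    by_cases h : j = i
    · rw [h, if_pos rfl, if_pos rfl]
    · rw [if_neg h, if_neg]
      intro h1
      exact h (Finsupp.single_left_injective one_ne_zero h1)
  have hg : ∀ j : Fin 3, coeff (Finsupp.single j 1) (X 1 - w * X 0 ^ 3 : MvPowerSeries (Fin 3) K) =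
      if j = 1 then 1 else 0 := by
    intro j
    have h1 := (mem_maximalIdeal_pow_iff 2 _).1 (cube_mem w) (Finsupp.single j 1) (by simp)
    rw [map_sub, hX, h1, sub_zero]
  refine ⟨fun i => ?_, ?_⟩
  · fin_cases i
    · show constantCoeff (X 1 - w * X 0 ^ 3 : MvPowerSeries (Fin 3) K) = 0
      simp
    · exact constantCoeff_X _
  · rw [Fintype.linearIndependent_iff]
    intro g hg'
    have h1 : ∀ j : Fin 3, g 0 * (if j = 1 then 1 else 0) + g 1 * (if j = 0 then 1 else 0) =
        (0 : K) := by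
      intro j
      have h2 := congrFun hg' j
      rw [Finset.sum_apply, Fin.sum_univ_two] at h2
      rw [← hg j, ← hX 0 j]
      exact h2
    intro i
    fin_cases i
    · simpa using h1 1
    · simpa using h1 0

theorem li_xy : LI ![(X 0 : MvPowerSeries (Fin 3) K), X 1] := by
  classical
  have hX : ∀ i j : Fin 3, coeff (Finsupp.single j 1) (X i : MvPowerSeries (Fin 3) K) =
      if j = i then 1 else 0 := by
    intro i j
    rw [coeff_X]
    by_cases h : j = i
    · rw [h, if_pos rfl, if_pos rfl]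
    · rw [if_neg h, if_neg]
      intro h1
      exact h (Finsupp.single_left_injective one_ne_zero h1)
  refine ⟨fun i => ?_, ?_⟩
  · fin_cases i
    · exact constantCoeff_X _
    · exact constantCoeff_X _
  · rw [Fintype.linearIndependent_iff]
    intro g hg'
    have h1 : ∀ j : Fin 3, g 0 * (if j = 0 then 1 else 0) + g 1 * (if j = 1 then 1 else 0) =
        (0 : K) := by
      intro j
      have h2 := congrFun hg' j
      rw [Finset.sum_apply, Fin.sum_univ_two] at h2
      rw [← hX, ← hX]
      exact h2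
    intro i
    fin_cases i
    · simpa using h1 0
    · simpa using h1 1

/-- All components are smooth. -/
theorem eK_smooth (i : Fin 11) : eK K i ∈ IsLocalRing.maximalIdeal (MvPowerSeries (Fin 3) K) ∧
    eK K i ∉ IsLocalRing.maximalIdeal (MvPowerSeries (Fin 3) K) ^ 2 := by
  refine Fin.cases ?_ (fun k => ?_) i
  · exact ⟨X_mem 0, (li_xy (K := K)).notMem_sq 0⟩
  · exact ⟨(li_gK (wK K k)).mem 0, (li_gK (wK K k)).notMem_sq 0⟩

theorem eK_prime (i : Fin 11) : Prime (eK K i) :=
  prime_of_notMem_sq (eK_smooth i).1 (eK_smooth i).2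

theorem gK_sub (k l : Fin 10) : gK K l = (wK K k - wK K l) * X 0 ^ 3 + gK K k := by
  unfold gK
  ring

theorem eK_not_dvd (i j : Fin 11) (h : i ≠ j) : ¬ eK K i ∣ eK K j := by
  revert h
  refine Fin.cases ?_ (fun k => ?_) i
  · refine Fin.cases (fun h => absurd rfl h) (fun l _ hd => ?_) j
    have h1 : (X 0 : MvPowerSeries (Fin 3) K) ∣ X 1 := by
      have h2 : (X 1 : MvPowerSeries (Fin 3) K) = gK K l + wK K l * X 0 ^ 3 := by
        unfold gK
        ring
      rw [h2]
      exact dvd_add hd (Dvd.dvd.mul_left (dvd_pow_self _ (by norm_num)) _)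
    exact (li_xy (K := K)).not_dvd h1
  · refine Fin.cases (fun _ hd => (li_gK (wK K k)).not_dvd hd) (fun l h hd => ?_) j
    have hkl : k ≠ l := fun h1 => h (by rw [h1])
    rw [eK_succ, eK_succ, gK_sub k l] at hd
    have h1 : gK K k ∣ (wK K k - wK K l) * X 0 ^ 3 := (dvd_add_left (dvd_refl _)).1 hd
    have h2 : gK K k ∣ X 0 ^ 3 := ((wK_unit hkl).dvd_mul_left).1 h1
    have h3 : gK K k ∣ X 0 := (eK_prime k.succ).dvd_of_dvd_pow h2
    exact (li_gK (wK K k)).not_dvd h3

theorem eK_rad : Rad (∏ i, eK K i) := Rad.prod _ eK_prime eK_not_dvd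

end

end Pool.Agent.Helper80.R2
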