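import Pool.Agent.Helper80.R2.Germs
import Pool.Agent.Helper80.R2.Discr

/-! The discriminant of the product of the four polynomials `T ^ 2 - h_m`. -/

set_option linter.unusedSectionVars false

namespace Pool.Agent.Helper80.R2

open MvPowerSeries Pool.Agent.Helper38.EQ
open Pool.Agent.Helper38.ED (LI prime_of_notMem_sq Rad)

/-- The four series `h_m` in the variables `x = X 0`, `y = X 1`, `t = X 2`. -/
noncomputable def hK (K : Type) [Field K] : Fin 4 → MvPowerSeries (Fin 3) K :=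
  ![X 0 * X 1 + X 0 ^ 4, 2 * X 0 * X 1 + X 0 ^ 4,
    3 * X 0 * X 1 + ((1 + X 2) ^ 2 - 3) * X 0 ^ 4,
    5 * X 0 * X 1 + ((1 + X 2) ^ 2 - 5) * X 0 ^ 4]

section

variable {K : Type} [Field K] [CharZero K]

theorem natC (n : ℕ) (hn : n ≠ 0) : (n : MvPowerSeries (Fin 3) K) * C (1 / (n : K)) = 1 := by
  have h : (n : MvPowerSeries (Fin 3) K) = C (n : K) := (map_natCast (C : K →+* _) n).symm
  rw [h, ← map_mul, mul_one_div_cancel (Nat.cast_ne_zero.2 hn), map_one]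

theorem c2 : (2 : MvPowerSeries (Fin 3) K) * C (1 / 2) = 1 := by
  have := natC (K := K) 2 (by norm_num)
  simpa using this

theorem c3 : (3 : MvPowerSeries (Fin 3) K) * C (1 / 3) = 1 := by
  have := natC (K := K) 3 (by norm_num)
  simpa using this

theorem c4 : (4 : MvPowerSeries (Fin 3) K) * C (1 / 4) = 1 := by
  have := natC (K := K) 4 (by norm_num)
  simpa using this

theorem c5 : (5 : MvPowerSeries (Fin 3) K) * C (1 / 5) = 1 := by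
  have := natC (K := K) 5 (by norm_num)
  simpa using this

theorem g0 : gK K 0 = X 1 - 0 * X 0 ^ 3 := rfl
theorem g1 : gK K 1 = X 1 - 1 * X 0 ^ 3 := rfl
theorem g2 : gK K 2 = X 1 - (-1) * X 0 ^ 3 := rfl
theorem g3 : gK K 3 = X 1 - (- C (1 / 2)) * X 0 ^ 3 := rfl
theorem g4 : gK K 4 = X 1 - (C (1 / 3) * (3 - (1 + X 2) ^ 2)) * X 0 ^ 3 := rfl
theorem g5 : gK K 5 = X 1 - (C (1 / 5) * (5 - (1 + X 2) ^ 2)) * X 0 ^ 3 := rfl
theorem g6 : gK K 6 = X 1 - (C (1 / 2) * (4 - (1 + X 2) ^ 2)) * X 0 ^ 3 := rfl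
theorem g7 : gK K 7 = X 1 - (C (1 / 4) * (6 - (1 + X 2) ^ 2)) * X 0 ^ 3 := rfl
theorem g8 : gK K 8 = X 1 - (4 - (1 + X 2) ^ 2) * X 0 ^ 3 := rfl
theorem g9 : gK K 9 = X 1 - (C (1 / 3) * (6 - (1 + X 2) ^ 2)) * X 0 ^ 3 := rfl

theorem h0 : hK K 0 = X 0 * gK K 2 := by
  rw [g2]; show X 0 * X 1 + X 0 ^ 4 = _; ring

theorem h1 : hK K 1 = 2 * X 0 * gK K 3 := by
  rw [g3]; show 2 * X 0 * X 1 + X 0 ^ 4 = _
  linear_combination (- X 0 ^ 4) * c2 (K := K)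

theorem h2 : hK K 2 = 3 * X 0 * gK K 4 := by
  rw [g4]; show 3 * X 0 * X 1 + ((1 + X 2) ^ 2 - 3) * X 0 ^ 4 = _
  linear_combination ((3 - (1 + X 2) ^ 2) * X 0 ^ 4) * c3 (K := K)

theorem h3 : hK K 3 = 5 * X 0 * gK K 5 := by
  rw [g5]; show 5 * X 0 * X 1 + ((1 + X 2) ^ 2 - 5) * X 0 ^ 4 = _
  linear_combination ((5 - (1 + X 2) ^ 2) * X 0 ^ 4) * c5 (K := K)

theorem h01 : hK K 0 - hK K 1 = - X 0 * gK K 0 := by
  rw [g0]; show X 0 * X 1 + X 0 ^ 4 - (2 * X 0 * X 1 + X 0 ^ 4) = _; ring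

theorem h23 : hK K 2 - hK K 3 = - 2 * X 0 * gK K 1 := by
  rw [g1]
  show 3 * X 0 * X 1 + ((1 + X 2) ^ 2 - 3) * X 0 ^ 4 -
    (5 * X 0 * X 1 + ((1 + X 2) ^ 2 - 5) * X 0 ^ 4) = _
  ring

theorem h02 : hK K 0 - hK K 2 = - 2 * X 0 * gK K 6 := by
  rw [g6]
  show X 0 * X 1 + X 0 ^ 4 - (3 * X 0 * X 1 + ((1 + X 2) ^ 2 - 3) * X 0 ^ 4) = _
  linear_combination (- (4 - (1 + X 2) ^ 2) * X 0 ^ 4) * c2 (K := K)

theorem h03 : hK K 0 - hK K 3 = - 4 * X 0 * gK K 7 := by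
  rw [g7]
  show X 0 * X 1 + X 0 ^ 4 - (5 * X 0 * X 1 + ((1 + X 2) ^ 2 - 5) * X 0 ^ 4) = _
  linear_combination (- (6 - (1 + X 2) ^ 2) * X 0 ^ 4) * c4 (K := K)

theorem h12 : hK K 1 - hK K 2 = - X 0 * gK K 8 := by
  rw [g8]
  show 2 * X 0 * X 1 + X 0 ^ 4 - (3 * X 0 * X 1 + ((1 + X 2) ^ 2 - 3) * X 0 ^ 4) = _
  ring

theorem h13 : hK K 1 - hK K 3 = - 3 * X 0 * gK K 9 := by
  rw [g9]
  show 2 * X 0 * X 1 + X 0 ^ 4 - (5 * X 0 * X 1 + ((1 + X 2) ^ 2 - 5) * X 0 ^ 4) = _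
  linear_combination (- (6 - (1 + X 2) ^ 2) * X 0 ^ 4) * c3 (K := K)

/-- The discriminant. -/
theorem discr_eq : Associated (∏ i, (Polynomial.X ^ 2 - Polynomial.C (hK K i))).discr
    (X 0 ^ 28 * (gK K 2 * gK K 3 * gK K 4 * gK K 5) *
      (gK K 0 * gK K 1 * gK K 6 * gK K 7 * gK K 8 * gK K 9) ^ 4) := by
  classical
  refine (discr_sq (by norm_num) (hK K)).trans ?_
  have e1 : (∏ i, ∏ j ∈ Finset.univ.filter (fun j => j ≠ i), (hK K i - hK K j)) =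
      ((hK K 0 - hK K 1) * (hK K 0 - hK K 2) * (hK K 0 - hK K 3) * (hK K 1 - hK K 2) *
        (hK K 1 - hK K 3) * (hK K 2 - hK K 3)) ^ 2 := by
    simp only [Finset.prod_filter, Fin.prod_univ_four]
    simp only [ne_eq, not_true_eq_false, if_false, if_true, Fin.reduceEq, not_false_eq_true, one_mul,
      mul_one]
    ring
  rw [e1, h01, h02, h03, h12, h13, h23, Fin.prod_univ_four, h0, h1, h2, h3]
  have e2 : (4 : MvPowerSeries (Fin 3) K) ^ 4 *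
      (X 0 * gK K 2 * (2 * X 0 * gK K 3) * (3 * X 0 * gK K 4) * (5 * X 0 * gK K 5)) *
      ((-X 0 * gK K 0 * (-2 * X 0 * gK K 6) * (-4 * X 0 * gK K 7) * (-X 0 * gK K 8) *
        (-3 * X 0 * gK K 9) * (-2 * X 0 * gK K 1)) ^ 2) ^ 2 =
      C ((4 ^ 4 * 30 * 48 ^ 4 : ℕ) : K) *
      (X 0 ^ 28 * (gK K 2 * gK K 3 * gK K 4 * gK K 5) *
        (gK K 0 * gK K 1 * gK K 6 * gK K 7 * gK K 8 * gK K 9) ^ 4) := by
    rw [map_natCast]
    push_cast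
    ring
  rw [e2]
  refine associated_unit_mul_left _ _ ?_
  have h : ((4 ^ 4 * 30 * 48 ^ 4 : ℕ) : K) ≠ 0 := Nat.cast_ne_zero.2 (by norm_num)
  exact (isUnit_iff_ne_zero.2 h).map _

theorem prod_eK : ∏ i, eK K i = X 0 * ((gK K 2 * gK K 3 * gK K 4 * gK K 5) *
    (gK K 0 * gK K 1 * gK K 6 * gK K 7 * gK K 8 * gK K 9)) := by
  rw [Fin.prod_univ_succ, eK_zero]
  simp only [eK_succ]
  rw [Fin.prod_univ_succ, Fin.prod_univ_succ, Fin.prod_univ_eight]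
  show X 0 * (gK K 0 * (gK K 1 * (gK K 2 * gK K 3 * gK K 4 * gK K 5 * gK K 6 * gK K 7 * gK K 8 *
    gK K 9))) = _
  ring

/-- The reduced discriminant. -/
theorem span_eK : Ideal.span {∏ i, eK K i} =
    (Ideal.span {(∏ i, (Polynomial.X ^ 2 - Polynomial.C (hK K i))).discr}).radical := by
  refine Pool.Agent.Helper38.ED.Rad.span_eq eK_rad ⟨1, ?_⟩ ⟨28, ?_⟩
  · rw [pow_one]
    refine Dvd.dvd.trans ?_ discr_eq.symm.dvd
    rw [prod_eK]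
    exact ⟨X 0 ^ 27 * (gK K 0 * gK K 1 * gK K 6 * gK K 7 * gK K 8 * gK K 9) ^ 3, by ring⟩
  · refine discr_eq.dvd.trans ?_
    rw [prod_eK]
    exact ⟨(gK K 2 * gK K 3 * gK K 4 * gK K 5) ^ 27 *
      (gK K 0 * gK K 1 * gK K 6 * gK K 7 * gK K 8 * gK K 9) ^ 24, by ring⟩

end

end Pool.Agent.Helper80.R2
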